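import Mathlib

set_option autoImplicit false

/-!
# Permutations avoiding `321` and the arrow pattern `(12; 1 → 3)` are counted by Fibonacci numbers

If `π` avoids `321` then it contains the arrow pattern if and only if it contains `3142`: let `x₁ < x₂ < x₃` be an
occurrence, `x₁` in the cycle (block of the word `π`) `l`. If `x₁` is not the last letter of `l` then `x₃` is the next
letter, and the first letter of `l`, `x₃`, `x₂` form a `321`. So `x₃` is the first letter of `l`, and `x₃`, `x₁`, the first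
letter of the next block, `x₂` form a `3142`. Conversely let `c a d b` be a `3142`, `m` the first and `x₁` the last letter
of the block of `a`; then `x₁ < b < m` is an occurrence of the arrow pattern.

Permutations avoiding `321` and `3142`: let `A n` be their number and `B n` the number of those of `n + 1` letters which do
not begin with the smallest letter. Then `A (n + 1) = A n + B n` and `B (n + 1) = A (n + 1) + B n`: if the first letter is
the second smallest one, it can be removed; if it is larger, the second smallest letter directly follows the smallest one,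
and it can be removed.
-/

open Equiv

namespace Pool.Agent.Results.MP_1ce666_co.Fibonacci

/-- Standard cycle form: `L` is a list of cycles (as lists), each of which begins with its largest element, and the cycles
are ordered by increasing largest element. -/
def IsStd {n : ℕ} (L : List (List (Fin n))) : Prop :=
  (∀ l ∈ L, ∃ a t, l = a :: t ∧ ∀ b ∈ t, b < a) ∧
  L.Pairwise (fun l m => ∀ a ∈ l.head?, ∀ b ∈ m.head?, a < b)

/-- `θ σ = π`: `σ` is the product of the cycles of a standard cycle form `L` in which every element occurs exactly once, and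
deleting the parentheses of `L` gives the one-line notation of `π`. -/
def Theta {n : ℕ} (σ π : Perm (Fin n)) : Prop :=
  ∃ L : List (List (Fin n)), IsStd L ∧ σ = (L.map List.formPerm).prod ∧ L.flatten = List.ofFn π

/-- `π` avoids `321`. -/
def Av321 {n : ℕ} (π : Perm (Fin n)) : Prop :=
  ∀ i j k, i < j → j < k → ¬ (π k < π j ∧ π j < π i)

/-- `π` contains the arrow pattern `(12; 1 → 3)`: there are values `x₁ < x₂ < x₃` such that `x₁` occurs to the left of `x₂`
and `σ x₁ = x₃`, where `θ σ = π`. -/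
def ContainsArrow {n : ℕ} (π : Perm (Fin n)) : Prop :=
  ∃ σ : Perm (Fin n), Theta σ π ∧ ∃ x₁ x₂ x₃ : Fin n, x₁ < x₂ ∧ x₂ < x₃ ∧ π.symm x₁ < π.symm x₂ ∧ σ x₁ = x₃

/-- `π` avoids `3142`. -/
def Av3142 {n : ℕ} (π : Perm (Fin n)) : Prop :=
  ∀ i j k l, i < j → j < k → k < l → ¬ (π j < π l ∧ π l < π i ∧ π i < π k)

/-! ### The standard cycle form -/

theorem prod_notMem {n : ℕ} (L : List (List (Fin n))) (x : Fin n) (hx : x ∉ L.flatten) :
    (L.map List.formPerm).prod x = x := by
  induction L with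
  | nil => simp
  | cons m L ih =>
    simp only [List.flatten_cons, List.mem_append, not_or] at hx
    rw [List.map_cons, List.prod_cons, Perm.mul_apply, ih hx.2, List.formPerm_apply_of_notMem hx.1]

theorem prod_apply {n : ℕ} (L : List (List (Fin n))) (hn : L.flatten.Nodup) (l : List (Fin n)) (hl : l ∈ L)
    (x : Fin n) (hx : x ∈ l) : (L.map List.formPerm).prod x = l.formPerm x := by
  induction L with
  | nil => simp at hl
  | cons m L ih =>
    rw [List.flatten_cons, List.nodup_append] at hn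
    obtain ⟨h1, h2, h3⟩ := hn
    rw [List.map_cons, List.prod_cons, Perm.mul_apply]
    rcases List.mem_cons.1 hl with rfl | hl
    · rw [prod_notMem L x (fun h => h3 x hx x h rfl)]
    · rw [ih h2 hl]
      refine List.formPerm_apply_of_notMem fun h => ?_
      have h4 : l.formPerm x ∈ L.flatten := List.mem_flatten.2 ⟨l, hl, List.formPerm_apply_mem_of_mem hx⟩
      exact h3 _ h _ h4 rfl

theorem exists_std {n : ℕ} (N : ℕ) : ∀ w : List (Fin n), w.length ≤ N → w.Nodup →
    ∃ L : List (List (Fin n)), IsStd L ∧ L.flatten = w := by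
  induction N with
  | zero =>
    intro w hw _
    rw [Nat.le_zero, List.length_eq_zero_iff] at hw
    subst hw
    exact ⟨[], ⟨by simp, List.Pairwise.nil⟩, rfl⟩
  | succ N ih =>
    intro w hw hn
    rcases w with _ | ⟨a, w⟩
    · exact ⟨[], ⟨by simp, List.Pairwise.nil⟩, rfl⟩
    · have hsub : (w.dropWhile (· < a)).Sublist w := List.dropWhile_sublist _
      have hn' : w.Nodup := (List.nodup_cons.1 hn).2
      have ha : a ∉ w := (List.nodup_cons.1 hn).1
      obtain ⟨L, ⟨h1, h2⟩, h3⟩ := ih (w.dropWhile (· < a)) (by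
        have := hsub.length_le
        simp only [List.length_cons] at hw
        omega) (hsub.nodup hn')
      refine ⟨(a :: w.takeWhile (· < a)) :: L, ⟨?_, ?_⟩, ?_⟩
      · intro l hl
        rcases List.mem_cons.1 hl with rfl | hl
        · refine ⟨a, _, rfl, fun b hb => ?_⟩
          simpa using List.mem_takeWhile_imp hb
        · exact h1 l hl
      · rw [List.pairwise_cons]
        refine ⟨?_, h2⟩
        intro m hm x hx b hb
        simp only [List.head?_cons, Option.mem_def, Option.some.injEq] at hx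
        subst hx
        rcases L with _ | ⟨m0, L⟩
        · simp at hm
        · obtain ⟨c, t, rfl, -⟩ := h1 m0 (List.mem_cons_self ..)
          have hc : a < c := by
            rw [List.flatten_cons, List.cons_append] at h3
            have h5 : c ∈ w.dropWhile (· < a) := by rw [← h3]; exact List.mem_cons_self ..
            have h6 : c ≠ a := fun h => ha (h ▸ hsub.subset h5)
            have h7 : ¬ c < a := by
              have h8 := List.head?_dropWhile_not (fun x : Fin n => decide (x < a)) w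
              rw [← h3] at h8
              simpa using h8
            exact lt_of_le_of_ne (not_lt.1 h7) (Ne.symm h6)
          rcases List.mem_cons.1 hm with rfl | hm
          · simp only [List.head?_cons, Option.mem_def, Option.some.injEq] at hb
            rw [← hb]
            exact hc
          · exact hc.trans ((List.pairwise_cons.1 h2).1 m hm c (by simp) b hb)
      · rw [List.flatten_cons, h3, List.cons_append, List.takeWhile_append_dropWhile]

theorem exists_theta {n : ℕ} (π : Perm (Fin n)) : ∃ L : List (List (Fin n)), IsStd L ∧ L.flatten = List.ofFn π :=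
  exists_std _ _ le_rfl (List.nodup_ofFn.2 π.injective)

/-- the position in the word -/
theorem pos_eq {n : ℕ} (π : Perm (Fin n)) (x : Fin n) : (List.ofFn π).idxOf x = (π.symm x : ℕ) := by
  have h1 : (List.ofFn π)[(π.symm x : ℕ)]'(by simp) = x := by simp
  have h2 := List.Nodup.idxOf_getElem (List.nodup_ofFn.2 π.injective) (π.symm x : ℕ) (by simp)
  rwa [h1] at h2

/-! ### Facts about a block -/

section block

variable {n : ℕ} {L1 L2 : List (List (Fin n))} {m : Fin n} {t : List (Fin n)}

/-- abbreviation for the position in the word -/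
abbrev ps (L1 L2 : List (List (Fin n))) (m : Fin n) (t : List (Fin n)) (x : Fin n) : ℕ :=
  (L1.flatten ++ ((m :: t) ++ L2.flatten)).idxOf x

theorem ps1 (x : Fin n) (hx : ps L1 L2 m t x < L1.flatten.length) : x ∈ L1.flatten := by
  by_contra h
  rw [ps, List.idxOf_append_of_notMem h] at hx
  omega

theorem ps2 (h1 : (L1.flatten ++ ((m :: t) ++ L2.flatten)).Nodup) (x : Fin n) (hx : x ∈ m :: t) :
    ps L1 L2 m t x = L1.flatten.length + (m :: t).idxOf x := by
  rw [List.nodup_append] at h1
  have h2 : x ∉ L1.flatten := fun h => h1.2.2 x h x (List.mem_append_left _ hx) rfl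
  rw [ps, List.idxOf_append_of_notMem h2, List.idxOf_append_of_mem hx]

theorem ps3 (x : Fin n) (h1 : L1.flatten.length ≤ ps L1 L2 m t x)
    (h2 : ps L1 L2 m t x < L1.flatten.length + (m :: t).length) : x ∈ m :: t := by
  by_contra h
  by_cases h3 : x ∈ L1.flatten
  · rw [ps, List.idxOf_append_of_mem h3] at h1
    have := List.idxOf_lt_length_iff.2 h3
    omega
  · rw [ps, List.idxOf_append_of_notMem h3, List.idxOf_append_of_notMem h] at h2
    omega

end block

theorem std_facts {n : ℕ} {L1 L2 : List (List (Fin n))} {m : Fin n} {t : List (Fin n)}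
    (hL : IsStd (L1 ++ (m :: t) :: L2)) :
    (∀ x ∈ L1.flatten, x < m) ∧ (∀ x ∈ t, x < m) ∧
      (∀ d u L3, L2 = (d :: u) :: L3 → m < d) ∧ (L2 ≠ [] → ∃ d u L3, L2 = (d :: u) :: L3) := by
  obtain ⟨h1, h2⟩ := hL
  rw [List.pairwise_append] at h2
  obtain ⟨-, h3, h4⟩ := h2
  refine ⟨?_, ?_, ?_, ?_⟩
  · intro x hx
    obtain ⟨l, hl, hxl⟩ := List.mem_flatten.1 hx
    obtain ⟨a, s, rfl, hs⟩ := h1 l (List.mem_append_left _ hl)
    have h5 := h4 _ hl _ (List.mem_cons_self ..) a (by simp) m (by simp)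
    rcases List.mem_cons.1 hxl with rfl | hxs
    · exact h5
    · exact (hs x hxs).trans h5
  · obtain ⟨a, s, h5, hs⟩ := h1 (m :: t) (List.mem_append_right _ (List.mem_cons_self ..))
    rw [List.cons.injEq] at h5
    obtain ⟨rfl, rfl⟩ := h5
    exact hs
  · rintro d u L3 rfl
    exact (List.pairwise_cons.1 h3).1 _ (List.mem_cons_self ..) m (by simp) d (by simp)
  · intro h
    rcases L2 with _ | ⟨l, L3⟩
    · exact absurd rfl h
    · obtain ⟨a, s, rfl, -⟩ := h1 l (List.mem_append_right _ (List.mem_cons_of_mem _ (List.mem_cons_self ..)))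
      exact ⟨a, s, L3, rfl⟩

/-- a permutation avoiding `321` contains the arrow pattern if and only if it contains `3142` -/
theorem arrow_iff {n : ℕ} (π : Perm (Fin n)) (h321 : Av321 π) : ContainsArrow π ↔ ¬ Av3142 π := by
  have h321' : ∀ x y z : Fin n, π.symm x < π.symm y → π.symm y < π.symm z → ¬ (z < y ∧ y < x) := by
    intro x y z h1 h2 h3
    apply h321 _ _ _ h1 h2
    simpa using h3
  constructor
  · rintro ⟨σ, ⟨L, hL, rfl, hw⟩, x₁, x₂, x₃, h12, h23, hp, hσ⟩ hav
    have hnd : L.flatten.Nodup := by rw [hw]; exact List.nodup_ofFn.2 π.injective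
    have hall : ∀ x : Fin n, x ∈ L.flatten := fun x => by
      rw [hw, List.mem_ofFn]
      exact ⟨π.symm x, by simp⟩
    obtain ⟨l, hl, hxl⟩ := List.mem_flatten.1 (hall x₁)
    rw [prod_apply L hnd l hl x₁ hxl] at hσ
    obtain ⟨L1, L2, rfl⟩ := List.append_of_mem hl
    obtain ⟨m, t, rfl, -⟩ := hL.1 l hl
    obtain ⟨f1, f2, f3, f4⟩ := std_facts hL
    have hfl : (L1 ++ (m :: t) :: L2).flatten = L1.flatten ++ ((m :: t) ++ L2.flatten) := by
      rw [List.flatten_append, List.flatten_cons]
    rw [hfl] at hw hnd hall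
    have hpos : ∀ x : Fin n, (π.symm x : ℕ) = ps L1 L2 m t x := fun x => by
      rw [← pos_eq, ← hw]
    have hx3 : x₃ ∈ m :: t := by rw [← hσ]; exact List.formPerm_apply_mem_of_mem hxl
    have hnl : (m :: t).Nodup := (List.nodup_append.1 (List.nodup_append.1 hnd).2.1).1
    have hm0 : ps L1 L2 m t m = L1.flatten.length := by
      rw [ps2 hnd m (List.mem_cons_self ..), List.idxOf_cons_self, add_zero]
    obtain ⟨i, hi, hxi⟩ := List.getElem_of_mem hxl
    have hi1 : ps L1 L2 m t x₁ = L1.flatten.length + i := by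
      rw [ps2 hnd x₁ hxl, ← hxi, List.Nodup.idxOf_getElem hnl]
    rw [← hxi, List.formPerm_apply_getElem _ hnl i hi] at hσ
    by_cases hlast : i + 1 < (m :: t).length
    · -- `x₃` follows `x₁`
      have h3 : ps L1 L2 m t x₃ = L1.flatten.length + (i + 1) := by
        rw [ps2 hnd x₃ hx3, ← hσ, List.Nodup.idxOf_getElem hnl, Nat.mod_eq_of_lt hlast]
      have hp1 := hpos x₁
      have hp2 := hpos x₂
      have hp3 := hpos x₃
      have hpm := hpos m
      have hx2ne : (π.symm x₂ : ℕ) ≠ π.symm x₃ := fun h => h23.ne (π.symm.injective (Fin.ext h))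
      have hp' : (π.symm x₁ : ℕ) < π.symm x₂ := hp
      refine h321' m x₃ x₂ ?_ ?_ ⟨h23, ?_⟩
      · rw [Fin.lt_def]; omega
      · rw [Fin.lt_def]; omega
      · rcases List.mem_cons.1 hx3 with h | h
        · exfalso
          rw [h] at h3
          omega
        · exact f2 _ h
    · have hi2 : i + 1 = (m :: t).length := by omega
      have hx3m : x₃ = m := by
        rw [← hσ]
        simp [hi2]
      subst hx3m
      have hp1 := hpos x₁
      have hp2 := hpos x₂
      have hpm := hpos x₃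
      have hp' : (π.symm x₁ : ℕ) < π.symm x₂ := hp
      have hL2 : L2 ≠ [] := by
        rintro rfl
        have h5 : ps L1 [] x₃ t x₂ < (L1.flatten ++ ((x₃ :: t) ++ ([] : List (List (Fin n))).flatten)).length :=
          List.idxOf_lt_length_iff.2 (hall x₂)
        simp only [List.flatten_nil, List.append_nil, List.length_append] at h5
        omega
      obtain ⟨d, u, L3, rfl⟩ := f4 hL2
      have hd := f3 d u L3 rfl
      have hdpos : ps L1 ((d :: u) :: L3) x₃ t d = L1.flatten.length + (x₃ :: t).length := by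
        have g1 : d ∉ L1.flatten := fun h => absurd (f1 d h) (not_lt.2 hd.le)
        have g2 : d ∉ x₃ :: t := by
          intro h
          rcases List.mem_cons.1 h with h | h
          · exact hd.ne h.symm
          · exact absurd (f2 d h) (not_lt.2 hd.le)
        rw [ps, List.idxOf_append_of_notMem g1, List.idxOf_append_of_notMem g2, List.flatten_cons,
          List.cons_append, List.idxOf_cons_self, add_zero]
      have hpd := hpos d
      have hx1m : (π.symm x₁ : ℕ) ≠ π.symm x₃ := fun h => (h12.trans h23).ne (π.symm.injective (Fin.ext h))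
      have hx2d : (π.symm x₂ : ℕ) ≠ π.symm d := fun h => (h23.trans hd).ne (π.symm.injective (Fin.ext h))
      refine hav (π.symm x₃) (π.symm x₁) (π.symm d) (π.symm x₂) ?_ ?_ ?_ ?_
      · rw [Fin.lt_def]; omega
      · rw [Fin.lt_def]; omega
      · rw [Fin.lt_def]; omega
      · simp only [Equiv.apply_symm_apply]
        exact ⟨h12, h23, hd⟩
  · intro hav
    unfold Av3142 at hav
    push Not at hav
    obtain ⟨pc, pa, pd, pb, hca, had, hdb, hab, hbc, hcd⟩ := hav
    obtain ⟨L, hL, hw⟩ := exists_theta π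
    have hnd : L.flatten.Nodup := by rw [hw]; exact List.nodup_ofFn.2 π.injective
    obtain ⟨a, rfl⟩ : ∃ a, pa = π.symm a := ⟨π pa, by simp⟩
    obtain ⟨b, rfl⟩ : ∃ b, pb = π.symm b := ⟨π pb, by simp⟩
    obtain ⟨c, rfl⟩ : ∃ c, pc = π.symm c := ⟨π pc, by simp⟩
    obtain ⟨d, rfl⟩ : ∃ d, pd = π.symm d := ⟨π pd, by simp⟩
    simp only [Equiv.apply_symm_apply] at hab hbc hcd
    have ha : a ∈ L.flatten := by
      rw [hw, List.mem_ofFn]
      exact ⟨π.symm a, by simp⟩
    obtain ⟨l, hl, hal⟩ := List.mem_flatten.1 ha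
    have happ := prod_apply L hnd l hl
    refine ⟨_, ⟨L, hL, rfl, hw⟩, ?_⟩
    obtain ⟨L1, L2, rfl⟩ := List.append_of_mem hl
    obtain ⟨m, t, rfl, -⟩ := hL.1 l hl
    obtain ⟨f1, f2, f3, f4⟩ := std_facts hL
    have hfl : (L1 ++ (m :: t) :: L2).flatten = L1.flatten ++ ((m :: t) ++ L2.flatten) := by
      rw [List.flatten_append, List.flatten_cons]
    rw [hfl] at hw hnd
    have hpos : ∀ x : Fin n, (π.symm x : ℕ) = ps L1 L2 m t x := fun x => by
      rw [← pos_eq, ← hw]
    have hnl : (m :: t).Nodup := (List.nodup_append.1 (List.nodup_append.1 hnd).2.1).1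
    have hm0 : ps L1 L2 m t m = L1.flatten.length := by
      rw [ps2 hnd m (List.mem_cons_self ..), List.idxOf_cons_self, add_zero]
    -- the last letter of the block
    obtain ⟨z, hz⟩ : ∃ z, z = (m :: t).getLast (List.cons_ne_nil m t) := ⟨_, rfl⟩
    have hzl : z ∈ m :: t := by rw [hz]; exact List.getLast_mem _
    have hzi : ps L1 L2 m t z = L1.flatten.length + ((m :: t).length - 1) := by
      rw [ps2 hnd z hzl, hz, List.getLast_eq_getElem, List.Nodup.idxOf_getElem hnl]
    have hfz : (m :: t).formPerm z = m := by rw [hz]; exact List.formPerm_apply_getLast m t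
    have hlen : (m :: t).length = t.length + 1 := List.length_cons
    have hle : ∀ x ∈ m :: t, ps L1 L2 m t x ≤ ps L1 L2 m t z := by
      intro x hx
      rw [hzi, ps2 hnd x hx]
      have := List.idxOf_lt_length_iff.2 hx
      omega
    have hge : ∀ x ∈ m :: t, L1.flatten.length ≤ ps L1 L2 m t x := by
      intro x hx
      rw [ps2 hnd x hx]
      omega
    have hcls : ∀ x ∈ m :: t, x ≠ m → x < m := by
      intro x hx hne
      rcases List.mem_cons.1 hx with h | h
      · exact absurd h hne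
      · exact f2 x h
    have e1 := hpos a
    have e2 := hpos b
    have e3 := hpos c
    have e4 := hpos d
    have e5 := hpos m
    have e6 := hpos z
    have hca' : (π.symm c : ℕ) < π.symm a := hca
    have had' : (π.symm a : ℕ) < π.symm d := had
    have hdb' : (π.symm d : ℕ) < π.symm b := hdb
    have ham : a ≠ m := by
      rintro rfl
      have h1 : c ∈ L1.flatten := ps1 (L1 := L1) (L2 := L2) (m := a) (t := t) c (by omega)
      exact absurd (f1 c h1) (not_lt.2 (hab.trans hbc).le)
    have hcm : c ≤ m := by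
      by_cases h1 : ps L1 L2 m t c < L1.flatten.length
      · exact (f1 c (ps1 c h1)).le
      · have h2 : c ∈ m :: t := by
          refine ps3 (L1 := L1) (L2 := L2) c (not_lt.1 h1) ?_
          have := hle a hal
          omega
        rcases List.mem_cons.1 h2 with h | h
        · exact h.le
        · exact (f2 c h).le
    have hga := hge a hal
    have hla := hle a hal
    have hpam : (π.symm a : ℕ) ≠ π.symm m := fun h => ham (π.symm.injective (Fin.ext h))
    have hbl : L1.flatten.length + (m :: t).length ≤ ps L1 L2 m t b := by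
      by_contra hcon
      have hdl : d ∈ m :: t := ps3 (L1 := L1) (L2 := L2) d (by omega) (by omega)
      have hdm : d ≠ m := by
        rintro rfl
        omega
      refine h321' m d b ?_ hdb ⟨hbc.trans hcd, hcls d hdl hdm⟩
      rw [Fin.lt_def]
      omega
    have hzm : z ≠ m := by
      rintro rfl
      omega
    have hzb : z < b := by
      by_contra hcon
      have hne : z ≠ b := by
        rintro rfl
        omega
      refine h321' m z b ?_ ?_ ⟨lt_of_le_of_ne (not_lt.1 hcon) (Ne.symm hne), hcls z hzl hzm⟩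
      · rw [Fin.lt_def]
        omega
      · rw [Fin.lt_def]
        omega
    refine ⟨z, b, m, hzb, lt_of_lt_of_le hbc hcm, ?_, ?_⟩
    · rw [Fin.lt_def]
      omega
    · rw [happ z hzl, hfz]

/-! ### Counting -/

/-- insert the value `v` at the position `i` -/
def ins {n : ℕ} (i v : Fin (n + 1)) (σ : Perm (Fin n)) : Perm (Fin (n + 1)) :=
  ((finSuccEquiv' i).trans (optionCongr σ)).trans (finSuccEquiv' v).symm

theorem ins_self {n : ℕ} (i v : Fin (n + 1)) (σ : Perm (Fin n)) : ins i v σ i = v := by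
  simp [ins]

theorem ins_succAbove {n : ℕ} (i v : Fin (n + 1)) (σ : Perm (Fin n)) (y : Fin n) :
    ins i v σ (i.succAbove y) = v.succAbove (σ y) := by
  simp [ins]

theorem ins_inj {n : ℕ} {i v : Fin (n + 1)} {σ τ : Perm (Fin n)} (h : ins i v σ = ins i v τ) : σ = τ := by
  ext y
  have h1 : ins i v σ (i.succAbove y) = ins i v τ (i.succAbove y) := by rw [h]
  rw [ins_succAbove, ins_succAbove] at h1
  rw [Fin.succAbove_right_injective h1]

theorem exists_ins {n : ℕ} (π : Perm (Fin (n + 1))) (i : Fin (n + 1)) : ∃ σ, ins i (π i) σ = π := by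
  have h : ∀ y : Fin n, ∃ z, (π i).succAbove z = π (i.succAbove y) := fun y =>
    Fin.exists_succAbove_eq (fun hh => Fin.succAbove_ne i y (π.injective hh))
  choose f hf using h
  have hinj : Function.Injective f := by
    intro y y' hy
    have h1 : π (i.succAbove y) = π (i.succAbove y') := by rw [← hf, ← hf, hy]
    exact Fin.succAbove_right_injective (π.injective h1)
  refine ⟨Equiv.ofBijective f (Finite.injective_iff_bijective.1 hinj), ?_⟩
  ext x
  rcases Fin.eq_self_or_eq_succAbove i x with rfl | ⟨y, rfl⟩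
  · rw [ins_self]
  · rw [ins_succAbove, Equiv.ofBijective_apply, hf]

/-- both patterns are avoided -/
def Good {n : ℕ} (π : Perm (Fin n)) : Prop := Av321 π ∧ Av3142 π

theorem good_of_ins {n : ℕ} {i v : Fin (n + 1)} {σ : Perm (Fin n)} (h : Good (ins i v σ)) : Good σ := by
  refine ⟨fun a b c hab hbc hh => ?_, fun a b c d hab hbc hcd hh => ?_⟩
  · apply h.1 (i.succAbove a) (i.succAbove b) (i.succAbove c)
    · rwa [Fin.succAbove_lt_succAbove_iff]
    · rwa [Fin.succAbove_lt_succAbove_iff]
    · simp only [ins_succAbove, Fin.succAbove_lt_succAbove_iff]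
      exact hh
  · apply h.2 (i.succAbove a) (i.succAbove b) (i.succAbove c) (i.succAbove d)
    · rwa [Fin.succAbove_lt_succAbove_iff]
    · rwa [Fin.succAbove_lt_succAbove_iff]
    · rwa [Fin.succAbove_lt_succAbove_iff]
    · simp only [ins_succAbove, Fin.succAbove_lt_succAbove_iff]
      exact hh

/-- inserting the smallest or the second smallest letter at the beginning -/
theorem good_ins_zero {n : ℕ} {v : Fin (n + 1)} (hv : (v : ℕ) ≤ 1) {σ : Perm (Fin n)} (h : Good σ) :
    Good (ins 0 v σ) := by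
  have key : ∀ x y : Fin (n + 1), x ≠ 0 → y ≠ 0 → ∃ x' y' : Fin n, 0 = (0 : ℕ) ∧ (x : ℕ) = x' + 1 ∧ (y : ℕ) = y' + 1 ∧
      (ins 0 v σ x < ins 0 v σ y ↔ σ x' < σ y') := by
    intro x y hx hy
    obtain ⟨x', rfl⟩ := Fin.exists_succ_eq.2 hx
    obtain ⟨y', rfl⟩ := Fin.exists_succ_eq.2 hy
    refine ⟨x', y', rfl, by simp, by simp, ?_⟩
    rw [← Fin.succAbove_zero_apply x', ← Fin.succAbove_zero_apply y', ins_succAbove, ins_succAbove,
      Fin.succAbove_lt_succAbove_iff]
  have hs : ∀ x : Fin n, ins 0 v σ x.succ = v.succAbove (σ x) := fun x => by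
    rw [← Fin.succAbove_zero_apply x, ins_succAbove]
  refine ⟨fun a b c hab hbc hh => ?_, fun a b c d hab hbc hcd hh => ?_⟩
  · obtain ⟨b', rfl⟩ := Fin.exists_succ_eq.2 (Fin.ne_zero_of_lt hab)
    obtain ⟨c', rfl⟩ := Fin.exists_succ_eq.2 (Fin.ne_zero_of_lt hbc)
    by_cases ha : a = 0
    · subst ha
      rw [ins_self] at hh
      have h1 := hh.1
      have h2 := hh.2
      rw [Fin.lt_def] at h1 h2
      omega
    · obtain ⟨a', rfl⟩ := Fin.exists_succ_eq.2 ha
      simp only [hs, Fin.succAbove_lt_succAbove_iff, Fin.succ_lt_succ_iff] at hh hab hbc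
      exact h.1 a' b' c' hab hbc hh
  · obtain ⟨b', rfl⟩ := Fin.exists_succ_eq.2 (Fin.ne_zero_of_lt hab)
    obtain ⟨c', rfl⟩ := Fin.exists_succ_eq.2 (Fin.ne_zero_of_lt hbc)
    obtain ⟨d', rfl⟩ := Fin.exists_succ_eq.2 (Fin.ne_zero_of_lt hcd)
    by_cases ha : a = 0
    · subst ha
      rw [ins_self] at hh
      have h1 := hh.1
      have h2 := hh.2.1
      rw [Fin.lt_def] at h1 h2
      omega
    · obtain ⟨a', rfl⟩ := Fin.exists_succ_eq.2 ha
      simp only [hs, Fin.succAbove_lt_succAbove_iff, Fin.succ_lt_succ_iff] at hh hab hbc hcd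
      exact h.2 a' b' c' d' hab hbc hcd hh

/-- the positions and values after the insertion of the second smallest letter behind the smallest one -/
theorem ins_next {n : ℕ} (σ : Perm (Fin (n + 1))) (x : Fin (n + 2)) :
    ∃ y : Fin (n + 1),
      ((x : ℕ) = (σ.symm 0 : Fin (n + 1)) + 1 ∧ (ins (σ.symm 0).succ 1 σ x : ℕ) = 1 ∧ (y : ℕ) = (σ.symm 0 : Fin (n + 1)) ∧
        (σ y : ℕ) = 0) ∨
      ((x : ℕ) = (σ.symm 0 : Fin (n + 1)) ∧ (ins (σ.symm 0).succ 1 σ x : ℕ) = 0 ∧ (y : ℕ) = (σ.symm 0 : Fin (n + 1)) ∧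
        (σ y : ℕ) = 0) ∨
      ((x : ℕ) < (σ.symm 0 : Fin (n + 1)) ∧ (y : ℕ) = x ∧ (ins (σ.symm 0).succ 1 σ x : ℕ) = σ y + 1 ∧ 0 < (σ y : ℕ)) ∨
      ((σ.symm 0 : Fin (n + 1)) + 1 < (x : ℕ) ∧ (y : ℕ) + 1 = x ∧ (ins (σ.symm 0).succ 1 σ x : ℕ) = σ y + 1 ∧
        0 < (σ y : ℕ)) := by
  rcases Fin.eq_self_or_eq_succAbove (σ.symm 0).succ x with rfl | ⟨y, rfl⟩
  · refine ⟨σ.symm 0, Or.inl ⟨by simp, ?_, rfl, by simp⟩⟩
    rw [ins_self]
    simp
  · refine ⟨y, Or.inr ?_⟩
    rw [ins_succAbove]
    by_cases hy : y = σ.symm 0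
    · left
      have h0 : σ y = 0 := by rw [hy]; simp
      refine ⟨?_, ?_, by rw [hy], by rw [h0]; simp⟩
      · rw [Fin.succAbove_of_castSucc_lt _ _ (by rw [hy, Fin.lt_def]; simp), hy]
        simp
      · rw [h0]
        simp [Fin.succAbove]
    · right
      have h0 : σ y ≠ 0 := by
        intro h
        apply hy
        rw [← h]
        simp
      have h1 : 0 < (σ y : ℕ) := Nat.pos_of_ne_zero fun h => h0 (Fin.ext h)
      have hv : ((1 : Fin (n + 2)).succAbove (σ y) : ℕ) = σ y + 1 := by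
        rw [Fin.succAbove_of_le_castSucc]
        · simp
        · have h2 : ((1 : Fin (n + 2)) : ℕ) = 1 := by simp
          rw [Fin.le_def, h2]
          exact h1
      rw [hv]
      rcases lt_or_gt_of_ne hy with hlt | hgt
      · left
        rw [Fin.lt_def] at hlt
        rw [Fin.succAbove_of_castSucc_lt _ _ (by rw [Fin.lt_def]; simp; omega)]
        exact ⟨by simpa using hlt, by simp, rfl, h1⟩
      · right
        rw [Fin.lt_def] at hgt
        rw [Fin.succAbove_of_le_castSucc _ _ (by rw [Fin.le_def]; simp; omega)]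
        exact ⟨by simpa using hgt, by simp, rfl, h1⟩

theorem good_ins_next {n : ℕ} {σ : Perm (Fin (n + 1))} (h : Good σ) : Good (ins (σ.symm 0).succ 1 σ) := by
  refine ⟨fun a b c hab hbc hh => ?_, fun a b c d hab hbc hcd hh => ?_⟩
  · obtain ⟨a', ha⟩ := ins_next σ a
    obtain ⟨b', hb⟩ := ins_next σ b
    obtain ⟨c', hc⟩ := ins_next σ c
    simp only [Fin.lt_def] at hab hbc hh
    have h1 : a' < b' := by rw [Fin.lt_def]; omega
    have h2 : b' < c' := by rw [Fin.lt_def]; omega
    refine h.1 a' b' c' h1 h2 ⟨?_, ?_⟩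
    · rw [Fin.lt_def]; omega
    · rw [Fin.lt_def]; omega
  · obtain ⟨a', ha⟩ := ins_next σ a
    obtain ⟨b', hb⟩ := ins_next σ b
    obtain ⟨c', hc⟩ := ins_next σ c
    obtain ⟨d', hd⟩ := ins_next σ d
    simp only [Fin.lt_def] at hab hbc hcd hh
    have h1 : a' < b' := by rw [Fin.lt_def]; omega
    have h2 : b' < c' := by rw [Fin.lt_def]; omega
    have h3 : c' < d' := by rw [Fin.lt_def]; omega
    refine h.2 a' b' c' d' h1 h2 h3 ⟨?_, ?_, ?_⟩
    · rw [Fin.lt_def]; omega
    · rw [Fin.lt_def]; omega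
    · rw [Fin.lt_def]; omega

/-- the number of permutations avoiding both patterns -/
noncomputable def A (n : ℕ) : ℕ := Nat.card {π : Perm (Fin n) // Good π}

/-- the number of those which do not begin with the smallest letter -/
noncomputable def B (n : ℕ) : ℕ := Nat.card {π : Perm (Fin (n + 1)) // Good π ∧ π 0 ≠ 0}

theorem card_split {X : Type} [Finite X] (P Q : X → Prop) :
    Nat.card {x // P x} = Nat.card {x // P x ∧ Q x} + Nat.card {x // P x ∧ ¬ Q x} := by
  classical
  have e : {x // P x} ≃ {x // P x ∧ Q x} ⊕ {x // P x ∧ ¬ Q x} :=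
    (Equiv.sumCompl (fun x : {x // P x} => Q x.1)).symm.trans
      (Equiv.sumCongr (Equiv.subtypeSubtypeEquivSubtypeInter P Q)
        (Equiv.subtypeSubtypeEquivSubtypeInter P (fun x => ¬ Q x)))
  rw [Nat.card_congr e, Nat.card_sum]

theorem card_zero {n : ℕ} (v : Fin (n + 1)) (hv : (v : ℕ) ≤ 1) :
    Nat.card {π : Perm (Fin (n + 1)) // Good π ∧ π 0 = v} = A n := by
  symm
  refine Nat.card_congr (Equiv.ofBijective
    (fun σ => ⟨ins 0 v σ.1, good_ins_zero hv σ.2, ins_self 0 v σ.1⟩) ⟨?_, ?_⟩)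
  · intro σ τ h
    exact Subtype.ext (ins_inj (congrArg Subtype.val h))
  · rintro ⟨π, hπ, hπv⟩
    obtain ⟨σ, hσ⟩ := exists_ins π 0
    rw [hπv] at hσ
    subst hσ
    exact ⟨⟨σ, good_of_ins hπ⟩, rfl⟩

theorem A_succ (n : ℕ) : A (n + 1) = A n + B n := by
  rw [A, card_split _ (fun π : Perm (Fin (n + 1)) => π 0 = 0), card_zero 0 (by simp)]
  rfl

theorem card_two {n : ℕ} : Nat.card {π : Perm (Fin (n + 2)) // (Good π ∧ π 0 ≠ 0) ∧ ¬ π 0 = 1} = B n := by
  symm
  refine Nat.card_congr (Equiv.ofBijective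
    (fun σ => ⟨ins (σ.1.symm 0).succ 1 σ.1, ?_⟩) ⟨?_, ?_⟩)
  · obtain ⟨σ, hσ, hσ0⟩ := σ
    refine ⟨⟨good_ins_next hσ, ?_⟩, ?_⟩
    all_goals
      have hpos : (σ.symm 0 : Fin (n + 1)) ≠ 0 := by
        intro h
        apply hσ0
        rw [← h]
        simpa using h.symm
      have hpos' : 0 < ((σ.symm 0 : Fin (n + 1)) : ℕ) := Nat.pos_of_ne_zero fun h => hpos (Fin.ext h)
      obtain ⟨y, hy⟩ := ins_next σ 0
      intro h
      have h1 := congrArg Fin.val h
      simp only [Fin.val_zero] at hy h1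
    · omega
    · have h2 : ((1 : Fin (n + 2)) : ℕ) = 1 := by simp
      omega
  · rintro ⟨σ, hσ, hσ0⟩ ⟨τ, hτ, hτ0⟩ h
    have h1 : ins (σ.symm 0).succ 1 σ = ins (τ.symm 0).succ 1 τ := congrArg Subtype.val h
    have h2 : (σ.symm 0).succ = (τ.symm 0).succ := by
      apply (ins (τ.symm 0).succ 1 τ).injective
      rw [ins_self, ← h1, ins_self]
    rw [h2] at h1
    exact Subtype.ext (ins_inj h1)
  · rintro ⟨π, ⟨hπ, hπ0⟩, hπ1⟩
    obtain ⟨p, hp⟩ : ∃ p, p = π.symm 1 := ⟨_, rfl⟩
    obtain ⟨q, hq⟩ : ∃ q, q = π.symm 0 := ⟨_, rfl⟩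
    have hπp : π p = 1 := by rw [hp]; simp
    have hπq : π q = 0 := by rw [hq]; simp
    have hp0 : p ≠ 0 := by rintro rfl; exact hπ1 hπp
    have hq0 : q ≠ 0 := by rintro rfl; exact hπ0 hπq
    have hv1 : ((1 : Fin (n + 2)) : ℕ) = 1 := by simp
    have hpq : p ≠ q := by
      rintro rfl
      rw [hπp] at hπq
      have := congrArg Fin.val hπq
      simp at this
    have h0 : 2 ≤ (π 0 : ℕ) := by
      have h1 : (π 0 : ℕ) ≠ 0 := fun h => hπ0 (Fin.ext h)
      have h2 : (π 0 : ℕ) ≠ 1 := fun h => hπ1 (Fin.ext (by rw [h, hv1]))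
      omega
    have hqp : q < p := by
      by_contra hcon
      refine hπ.1 0 p q (Fin.pos_of_ne_zero hp0) (lt_of_le_of_ne (not_lt.1 hcon) hpq) ⟨?_, ?_⟩
      · rw [hπp, hπq, Fin.lt_def, hv1]; simp
      · rw [hπp, Fin.lt_def, hv1]; omega
    have hnext : (p : ℕ) = q + 1 := by
      by_contra hcon
      have hqp' : (q : ℕ) < p := hqp
      have hr : (q : ℕ) + 1 < n + 2 := by have := p.isLt; omega
      obtain ⟨r, hr1⟩ : ∃ r : Fin (n + 2), (r : ℕ) = q + 1 := ⟨⟨q + 1, hr⟩, rfl⟩
      have hrq : r ≠ q := by rintro rfl; omega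
      have hrp : r ≠ p := by rintro rfl; omega
      have hr0 : r ≠ 0 := by rintro rfl; simp at hr1
      have hd0 : (π r : ℕ) ≠ 0 := fun h => hrq (π.injective (Fin.ext (by rw [h, hπq]; simp)))
      have hd1 : (π r : ℕ) ≠ 1 := fun h => hrp (π.injective (Fin.ext (by rw [h, hπp, hv1])))
      have hdc : (π r : ℕ) ≠ π 0 := fun h => hr0 (π.injective (Fin.ext h))
      have hrp' : r < p := by rw [Fin.lt_def]; omega
      rcases lt_or_gt_of_ne hdc with hlt | hgt
      · refine hπ.1 0 r p (Fin.pos_of_ne_zero hr0) hrp' ⟨?_, hlt⟩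
        rw [hπp, Fin.lt_def, hv1]; omega
      · refine hπ.2 0 q r p (Fin.pos_of_ne_zero hq0) (by rw [Fin.lt_def]; omega) hrp' ⟨?_, ?_, hgt⟩
        · rw [hπp, hπq, Fin.lt_def, hv1]; simp
        · rw [hπp, Fin.lt_def, hv1]; omega
    obtain ⟨σ, hσ⟩ := exists_ins π p
    rw [hπp] at hσ
    -- the position of the smallest letter
    obtain ⟨y, hy⟩ : ∃ y : Fin (n + 1), (y : ℕ) = q := ⟨⟨q, by have := p.isLt; omega⟩, rfl⟩
    have hyq : p.succAbove y = q := by
      rw [Fin.succAbove_of_castSucc_lt _ _ (by rw [Fin.lt_def]; simp; omega)]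
      exact Fin.ext (by simpa using hy)
    have hσy : σ y = 0 := by
      have h1 : ins p 1 σ (p.succAbove y) = 0 := by rw [hσ, hyq, hπq]
      rw [ins_succAbove] at h1
      by_contra hne
      have h2 : 0 < (σ y : ℕ) := Nat.pos_of_ne_zero fun h => hne (Fin.ext h)
      rw [Fin.succAbove_of_le_castSucc _ _ (by rw [Fin.le_def, hv1]; exact h2)] at h1
      exact absurd h1 (Fin.succ_ne_zero _)
    have hsy : σ.symm 0 = y := by rw [← hσy]; simp
    have hpy : (σ.symm 0).succ = p := by
      rw [hsy]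
      exact Fin.ext (by simp; omega)
    have hg : Good (ins p 1 σ) := by rw [hσ]; exact hπ
    refine ⟨⟨σ, good_of_ins hg, ?_⟩, ?_⟩
    · intro h
      have h1 : y = 0 := σ.injective (hσy.trans h.symm)
      rw [h1] at hy
      exact hq0 (Fin.ext (by rw [← hy]; simp))
    · apply Subtype.ext
      simp only
      rw [hpy, hσ]

theorem B_succ (n : ℕ) : B (n + 1) = A (n + 1) + B n := by
  have h1 : Nat.card {π : Perm (Fin (n + 2)) // (Good π ∧ π 0 ≠ 0) ∧ π 0 = 1} = A (n + 1) := by
    rw [← card_zero (n := n + 1) 1 (by simp)]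
    refine Nat.card_congr (Equiv.subtypeEquivRight fun π => ?_)
    constructor
    · rintro ⟨⟨h1, -⟩, h2⟩
      exact ⟨h1, h2⟩
    · rintro ⟨h1, h2⟩
      refine ⟨⟨h1, ?_⟩, h2⟩
      rw [h2]
      exact fun h => by have := congrArg Fin.val h; simp at this
  rw [B, card_split _ (fun π : Perm (Fin (n + 2)) => π 0 = 1), h1, card_two]

theorem A_zero : A 0 = 1 := by
  rw [A, Nat.card_eq_one_iff_unique]
  refine ⟨⟨fun a b => Subtype.ext (Subsingleton.elim _ _)⟩, ⟨⟨1, ?_, ?_⟩⟩⟩
  · intro i
    exact i.elim0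
  · intro i
    exact i.elim0

theorem B_zero : B 0 = 0 := by
  rw [B, Nat.card_eq_zero]
  left
  exact ⟨fun π => π.2.2 (Fin.ext (by omega))⟩

theorem AB (n : ℕ) : A (n + 1) = Nat.fib (2 * n + 1) ∧ B (n + 1) = Nat.fib (2 * n + 2) := by
  induction n with
  | zero =>
    rw [A_succ, B_succ, A_succ, A_zero, B_zero]
    simp
  | succ n ih =>
    have e1 : Nat.fib (2 * (n + 1) + 1) = Nat.fib (2 * n + 1) + Nat.fib (2 * n + 2) :=
      Nat.fib_add_two (n := 2 * n + 1)
    have e2 : Nat.fib (2 * (n + 1) + 2) = Nat.fib (2 * n + 2) + Nat.fib (2 * (n + 1) + 1) :=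
      Nat.fib_add_two (n := 2 * n + 2)
    have h1 : A (n + 1 + 1) = Nat.fib (2 * (n + 1) + 1) := by
      rw [A_succ, ih.1, ih.2, e1]
    refine ⟨h1, ?_⟩
    rw [B_succ, h1, ih.2, e2, add_comm]

/-- **For every `n ≥ 1` exactly `F_(2n-1)` permutations of `n` letters avoid both `321` and the arrow pattern
`(12; 1 → 3)`**; they are the permutations avoiding `321` and `3142`. -/
theorem result :
    (∀ n : ℕ, 1 ≤ n → Nat.card {π : Perm (Fin n) // Av321 π ∧ ¬ ContainsArrow π} = Nat.fib (2 * n - 1)) ∧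
      ∀ (n : ℕ) (π : Perm (Fin n)), Av321 π → (ContainsArrow π ↔ ¬ Av3142 π) := by
  refine ⟨fun n hn => ?_, fun n π h => arrow_iff π h⟩
  obtain ⟨n, rfl⟩ : ∃ k, n = k + 1 := ⟨n - 1, by omega⟩
  rw [show 2 * (n + 1) - 1 = 2 * n + 1 by omega, ← (AB n).1, A]
  refine Nat.card_congr (Equiv.subtypeEquivRight fun π => ?_)
  constructor
  · rintro ⟨h1, h2⟩
    exact ⟨h1, by_contra fun h3 => h2 ((arrow_iff π h1).2 h3)⟩
  · rintro ⟨h1, h2⟩
    exact ⟨h1, fun h3 => (arrow_iff π h1).1 h3 h2⟩

end Pool.Agent.Results.MP_1ce666_co.Fibonacci
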